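import Pool.Agent.Y97.AB.One

/-!
# Derivations and products; the form on products of classes of degree one
-/

set_option linter.unusedSectionVars false

open CategoryTheory AlgebraicGeometry Finset

universe u v

namespace Pool.Agent.Y668.AB

open Pool.Agent.H914 Pool.Agent.H914.VarClass Pool.Agent.H914.VarClass.Obj
  Pool.Agent.H914.WeilCohomology Pool.Agent.H281R3.HT Pool.Agent.W552 Pool.Agent.W539.Ker
  Pool.Agent.Y97 Pool.Agent.Y97.FD Pool.Agent.Y97.AB

variable {k : Type u} [Field k] {𝒱 : VarClass k} {ops : CycleOps 𝒱}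
  {W : WeilCohomology.{u, v} ops}

/-- The first cohomology of a product. -/
theorem gr1_prod {X Y : 𝒱.Obj} {v : W.H (X.prod Y)} (hv : v ∈ W.gr (X.prod Y) 1) :
    ∃ v₁ ∈ W.gr X 1, ∃ v₂ ∈ W.gr Y 1, v = W.map (fst X Y) v₁ + W.map (snd X Y) v₂ := by
  have key : ∀ c : W.H (X.prod Y), ∃ v₁ ∈ W.gr X 1, ∃ v₂ ∈ W.gr Y 1,
      proj (W.isInternal (X.prod Y)) 1 c = W.map (fst X Y) v₁ + W.map (snd X Y) v₂ := by
    intro c
    refine W.kunneth_induction (p := fun c => ∃ v₁ ∈ W.gr X 1, ∃ v₂ ∈ W.gr Y 1,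
      proj (W.isInternal (X.prod Y)) 1 c = W.map (fst X Y) v₁ + W.map (snd X Y) v₂) ?_ ?_ c
    · rintro a b ⟨a₁, ha₁, a₂, ha₂, ha⟩ ⟨b₁, hb₁, b₂, hb₂, hb⟩
      refine ⟨a₁ + b₁, Submodule.add_mem _ ha₁ hb₁, a₂ + b₂, Submodule.add_mem _ ha₂ hb₂, ?_⟩
      rw [map_add, ha, hb, map_add, map_add]
      abel
    · intro i j a ha b hb
      have hab : W.map (fst X Y) a * W.map (snd X Y) b ∈ W.gr (X.prod Y) (i + j) :=
        W.mul_mem (W.map_mem _ ha) (W.map_mem _ hb)
      by_cases hij : i + j = 1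
      · rw [hij] at hab
        rw [proj_same _ hab]
        have h01 : (i = 1 ∧ j = 0) ∨ (i = 0 ∧ j = 1) := by omega
        rcases h01 with ⟨rfl, rfl⟩ | ⟨rfl, rfl⟩
        · rw [W.gr_zero] at hb
          obtain ⟨β, rfl⟩ := Submodule.mem_span_singleton.1 hb
          refine ⟨β • a, Submodule.smul_mem _ _ ha, 0, Submodule.zero_mem _, ?_⟩
          rw [map_smul, map_smul, map_one, map_zero, add_zero, mul_smul_comm, mul_one]
        · rw [W.gr_zero] at ha
          obtain ⟨α, rfl⟩ := Submodule.mem_span_singleton.1 ha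
          refine ⟨0, Submodule.zero_mem _, α • b, Submodule.smul_mem _ _ hb, ?_⟩
          rw [map_smul, map_smul, map_one, map_zero, zero_add, smul_mul_assoc, one_mul]
      · refine ⟨0, Submodule.zero_mem _, 0, Submodule.zero_mem _, ?_⟩
        rw [proj_ne _ hab hij, map_zero, map_zero, add_zero]
  obtain ⟨v₁, h₁, v₂, h₂, h⟩ := key v
  refine ⟨v₁, h₁, v₂, h₂, ?_⟩
  rw [← h, proj_same _ hv]

section ops
variable {X Y : 𝒱.Obj} {D : X.Cycles} {f : Module.End W.K (W.H X)} {E : Y.Cycles}
  {g : Module.End W.K (W.H Y)}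

lemma mul_fst (w : W.H X) (c : W.H (X.prod Y)) :
    W.map (fst X Y) w * c = extOp W (LinearMap.mulLeft W.K w) 1 c := by
  refine W.kunneth_induction (p := fun c => W.map (fst X Y) w * c =
    extOp W (LinearMap.mulLeft W.K w) 1 c) ?_ ?_ c
  · intro a b ha hb
    rw [mul_add, ha, hb, map_add]
  · intro i j a _ b _
    rw [extOp_tmul, LinearMap.mulLeft_apply, map_mul, mul_assoc, Module.End.one_apply]

lemma par_one_mul {w : W.H X} (hw : w ∈ W.gr X 1) :
    LinearMap.mulLeft W.K w * par (W.isInternal X) =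
      -(par (W.isInternal X) * LinearMap.mulLeft W.K w) := by
  apply LinearMap.ext
  intro x
  refine gr_induction (W.isInternal X) (p := fun x =>
    (LinearMap.mulLeft W.K w * par (W.isInternal X)) x =
      (-(par (W.isInternal X) * LinearMap.mulLeft W.K w)) x) ?_ ?_ x
  · intro i a ha
    rw [Module.End.mul_apply, LinearMap.neg_apply, Module.End.mul_apply, LinearMap.mulLeft_apply,
      LinearMap.mulLeft_apply, par, scal_apply _ _ ha, scal_apply _ _ (W.mul_mem hw ha),
      mul_smul_comm, ← neg_smul]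
    congr 1
    rw [pow_add, pow_one]
    ring
  · intro a b ha hb
    rw [map_add, map_add, ha, hb]

lemma mul_snd {w : W.H Y} (hw : w ∈ W.gr Y 1) (c : W.H (X.prod Y)) :
    W.map (snd X Y) w * c =
      extOp W (par (W.isInternal X)) (LinearMap.mulLeft W.K w) c := by
  refine W.kunneth_induction (p := fun c => W.map (snd X Y) w * c =
    extOp W (par (W.isInternal X)) (LinearMap.mulLeft W.K w) c) ?_ ?_ c
  · intro a b ha hb
    rw [mul_add, ha, hb, map_add]
  · intro i j a ha b _
    rw [extOp_tmul, LinearMap.mulLeft_apply, map_mul, ← mul_assoc,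
      W.comm (W.map_mem (snd X Y) hw) (W.map_mem (fst X Y) ha), par, scal_apply _ _ ha, map_smul,
      one_mul, smul_mul_assoc, smul_mul_assoc, mul_assoc]

/-- the adjoint of the multiplication by a class of degree one is odd -/
lemma adj_par (G : Gp W X D f) {w : W.H X} (hw : w ∈ W.gr X 1)
    {w' : Module.End W.K (W.H X)} (h : ∀ a b, bf W X D f (w * a) b = bf W X D f a (w' b)) :
    w' * par (W.isInternal X) = -(par (W.isInternal X) * w') := by
  apply LinearMap.ext
  intro b
  rw [← sub_eq_zero]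
  apply G.gd.nondeg
  intro a
  have h1 : w * par (W.isInternal X) a = -(par (W.isInternal X) (w * a)) := by
    have := congrArg (fun F => F a) (par_one_mul (W := W) hw)
    simpa only [Module.End.mul_apply, LinearMap.neg_apply, LinearMap.mulLeft_apply] using this
  rw [map_sub, Module.End.mul_apply, LinearMap.neg_apply, Module.End.mul_apply, map_neg, ← h,
    ← G.gd.par_self, ← G.gd.par_self, ← h, h1, map_neg, LinearMap.neg_apply, neg_neg, sub_self]

end ops

lemma extOp_neg_left {X Y : 𝒱.Obj} (φ : Module.End W.K (W.H X)) (ψ : Module.End W.K (W.H Y)) :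
    extOp W (-φ) ψ = -extOp W φ ψ := by
  apply eq_neg_of_add_eq_zero_left
  rw [← extOp_add_left, neg_add_cancel, extOp_zero_left]

/-- The derivation property for products. -/
theorem der_prod {X Y : 𝒱.Obj} {D : X.Cycles} {f : Module.End W.K (W.H X)} {E : Y.Cycles}
    {g : Module.End W.K (W.H Y)} (F : Gp W X D f) (G : Gp W Y E g) (h : Der W X D f)
    (h' : Der W Y E g) :
    Der W (X.prod Y) (ops.pull (fst X Y) D + ops.pull (snd X Y) E) (extSum W f g) := by
  intro v hv
  obtain ⟨v₁, hv₁, v₂, hv₂, rfl⟩ := gr1_prod hv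
  obtain ⟨v₁', ha₁, ho₁, hd₁⟩ := h v₁ hv₁
  obtain ⟨v₂', ha₂, ho₂, hd₂⟩ := h' v₂ hv₂
  have hp₁ := adj_par F hv₁ ha₁
  refine ⟨extOp W v₁' 1 + extOp W (par (W.isInternal X)) v₂', ?_, ?_, ?_⟩
  · intro a b
    rw [add_mul, mul_fst, mul_snd hv₂, map_add, LinearMap.add_apply,
      bf_extOp F.fr G.fr (θ' := v₁') (ψ' := 1) (fun a b => ha₁ a b) (fun _ _ => rfl),
      bf_extOp F.fr G.fr (θ' := par (W.isInternal X)) (ψ' := v₂')
        (fun a b => F.gd.par_self a b) (fun a b => ha₂ a b), LinearMap.add_apply, map_add]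
  · have h1 : (1 : W.H (X.prod Y)) = W.map (fst X Y) 1 * W.map (snd X Y) 1 := by
      rw [map_one, map_one, mul_one]
    rw [LinearMap.add_apply, h1, extOp_tmul, extOp_tmul, ho₁, ho₂, map_zero, map_zero, zero_mul,
      mul_zero, add_zero]
  · intro w hw
    obtain ⟨w₁, hw₁, w₂, hw₂, rfl⟩ := gr1_prod hw
    obtain ⟨γ₁, hγ₁⟩ := hd₁ w₁ hw₁
    obtain ⟨γ₂, hγ₂⟩ := hd₂ w₂ hw₂
    refine ⟨γ₁ + γ₂, ?_⟩
    have e1 : v₁' * LinearMap.mulLeft W.K w₁ = γ₁ • 1 - LinearMap.mulLeft W.K w₁ * v₁' := by
      apply LinearMap.ext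
      intro a
      exact hγ₁ a
    have e2 : v₂' * LinearMap.mulLeft W.K w₂ = γ₂ • 1 - LinearMap.mulLeft W.K w₂ * v₂' := by
      apply LinearMap.ext
      intro a
      exact hγ₂ a
    have hpp := par_mul_par (W.isInternal X)
    have hw1p := par_one_mul (W := W) hw₁
    set M₁ := LinearMap.mulLeft W.K w₁
    set M₂ := LinearMap.mulLeft W.K w₂
    set π := par (W.isInternal X)
    -- the four relations
    have r1 : extOp W v₁' (1 : Module.End W.K (W.H Y)) * extOp W M₁ 1 =
        γ₁ • 1 - extOp W M₁ 1 * extOp W v₁' 1 := by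
      rw [extOp_mul, extOp_mul, e1, one_mul]
      have := map_sub (extL W X Y) (γ₁ • 1) (M₁ * v₁')
      rw [extL_apply, extL_apply, extL_apply] at this
      rw [this, extOp_smul_left, extOp_one]
    have r2 : extOp W v₁' (1 : Module.End W.K (W.H Y)) * extOp W π M₂ =
        -(extOp W π M₂ * extOp W v₁' 1) := by
      rw [extOp_mul, extOp_mul, hp₁, one_mul, mul_one, extOp_neg_left]
    have r3 : extOp W π v₂' * extOp W M₁ 1 = -(extOp W M₁ 1 * extOp W π v₂') := by
      rw [extOp_mul, extOp_mul, hw1p, one_mul, mul_one, extOp_neg_left, neg_neg]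
    have r4 : extOp W π v₂' * extOp W π M₂ = γ₂ • 1 - extOp W π M₂ * extOp W π v₂' := by
      rw [extOp_mul, extOp_mul, hpp, e2]
      have := map_sub (extR W X Y) (γ₂ • 1) (M₂ * v₂')
      rw [extR_apply, extR_apply, extR_apply] at this
      rw [this, extOp_smul_right, extOp_one]
    have hM : ∀ c : W.H (X.prod Y), (W.map (fst X Y) w₁ + W.map (snd X Y) w₂) * c =
        (extOp W M₁ (1 : Module.End W.K (W.H Y)) + extOp W π M₂) c := by
      intro c
      rw [add_mul, mul_fst, mul_snd hw₂, LinearMap.add_apply]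
    intro b
    rw [hM, hM]
    have r : (extOp W v₁' (1 : Module.End W.K (W.H Y)) + extOp W π v₂') *
        (extOp W M₁ 1 + extOp W π M₂) = (γ₁ + γ₂) • 1 -
        (extOp W M₁ 1 + extOp W π M₂) * (extOp W v₁' 1 + extOp W π v₂') := by
      rw [add_mul, mul_add, mul_add, r1, r2, r3, r4, add_mul, mul_add, mul_add, add_smul]
      abel
    have r' := congrArg (fun F => F b) r
    simpa only [Module.End.mul_apply, LinearMap.sub_apply, LinearMap.smul_apply,
      Module.End.one_apply] using r'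

/-- The derivation property for powers. -/
theorem der_power {P : Polarized 𝒱} {f : Module.End W.K (W.H P.X)} (G : Gp W P.X P.D f)
    (h : Der W P.X P.D f) (s : ℕ) :
    Der W (power ops P s).X (power ops P s).D (frm W P f s) := by
  induction s with
  | zero => exact h
  | succ s ih => exact der_prod G (gp_frm G s) h ih

section det
variable {X : 𝒱.Obj} {D : X.Cycles} {f : Module.End W.K (W.H X)}

/-- a derivation on a product of classes of degree one -/
lemma der_list {v' : Module.End W.K (W.H X)} (h1 : v' 1 = 0) {n : ℕ} (w : Fin (n + 1) → W.H X)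
    (γ : Fin (n + 1) → W.K) (hγ : ∀ i b, v' (w i * b) = γ i • b - w i * v' b) :
    v' (List.ofFn w).prod = ∑ j : Fin (n + 1), ((-1 : W.K) ^ (j : ℕ) * γ j) •
      (List.ofFn (fun i => w (j.succAbove i))).prod := by
  induction n with
  | zero =>
    rw [List.ofFn_succ, List.prod_cons, hγ, List.ofFn_zero, List.prod_nil, h1, mul_zero, sub_zero,
      Fin.sum_univ_one, List.ofFn_zero, List.prod_nil]
    simp
  | succ n ih =>
    rw [List.ofFn_succ, List.prod_cons, hγ, ih (fun i => w i.succ) (fun i => γ i.succ)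
      (fun i b => hγ i.succ b), Finset.mul_sum, sub_eq_add_neg, ← Finset.sum_neg_distrib]
    conv_rhs => rw [Fin.sum_univ_succ]
    congr 1
    · simp
    · refine Finset.sum_congr rfl fun j _ => ?_
      have e : (List.ofFn (fun i : Fin (n + 1) => w (j.succ.succAbove i))).prod =
          w 0 * (List.ofFn (fun i : Fin n => w (j.succAbove i).succ)).prod := by
        rw [List.ofFn_succ, List.prod_cons]
        simp only [Fin.succ_succAbove_zero, Fin.succ_succAbove_succ]
      rw [e, mul_smul_comm, ← neg_smul]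
      congr 1
      rw [Fin.val_succ, pow_succ]
      ring

/-- The form on products of classes of degree one. -/
theorem bf_prod_det (h : Der W X D f)
    (h1 : bf W X D f 1 1 ≠ 0) {n : ℕ} (v w : Fin n → W.H X) (hv : ∀ i, v i ∈ W.gr X 1)
    (hw : ∀ i, w i ∈ W.gr X 1) :
    bf W X D f (List.ofFn v).prod (List.ofFn w).prod = bf W X D f 1 1 *
      (Matrix.of fun i j => bf W X D f (v i) (w j) / bf W X D f 1 1).det := by
  induction n with
  | zero =>
    rw [List.ofFn_zero, List.ofFn_zero, List.prod_nil, Matrix.det_isEmpty, mul_one]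
  | succ n ih =>
    obtain ⟨v', ha, ho, hd⟩ := h (v 0) (hv 0)
    choose γ hγ using fun j => hd (w j) (hw j)
    have hγv : ∀ j, γ j = bf W X D f (v 0) (w j) / bf W X D f 1 1 := by
      intro j
      rw [eq_div_iff h1]
      have e1 := ha 1 (w j)
      have e2 := hγ j 1
      rw [mul_one, ho, mul_zero, sub_zero] at e2
      rw [mul_one, e2, map_smul, smul_eq_mul] at e1
      exact e1.symm
    rw [List.ofFn_succ (f := v), List.prod_cons, ha, der_list ho w γ hγ, map_sum,
      Matrix.det_succ_row_zero, Finset.mul_sum]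
    refine Finset.sum_congr rfl fun j _ => ?_
    rw [map_smul, ih (fun i => v i.succ) (fun i => w (j.succAbove i)) (fun i => hv _)
      (fun i => hw _), smul_eq_mul, hγv, Matrix.of_apply]
    have e : (Matrix.of fun i j => bf W X D f (v i) (w j) / bf W X D f 1 1).submatrix Fin.succ
        j.succAbove = Matrix.of fun i j' => bf W X D f (v i.succ) (w (j.succAbove j')) /
          bf W X D f 1 1 := rfl
    rw [e]
    ring

lemma prod_mem_gr {n : ℕ} (v : Fin n → W.H X) (hv : ∀ i, v i ∈ W.gr X 1) :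
    (List.ofFn v).prod ∈ W.gr X n := by
  induction n with
  | zero =>
    rw [List.ofFn_zero, List.prod_nil]
    exact W.one_mem X
  | succ n ih =>
    have h := W.mul_mem (hv 0) (ih (fun i => v i.succ) fun i => hv i.succ)
    rw [Nat.add_comm 1 n] at h
    rw [List.ofFn_succ, List.prod_cons]
    exact h

theorem bf_prod_ne (F : Fr W X D f) {n m : ℕ} (hnm : n ≠ m) (v : Fin n → W.H X)
    (w : Fin m → W.H X) (hv : ∀ i, v i ∈ W.gr X 1) (hw : ∀ i, w i ∈ W.gr X 1) :
    bf W X D f (List.ofFn v).prod (List.ofFn w).prod = 0 :=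
  F.bf_deg (prod_mem_gr v hv) (prod_mem_gr w hw) hnm

end det

end Pool.Agent.Y668.AB
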